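import Pool.Agent.Lib.BU59.Main
import Pool.Agent.Lib.BU59.B_END
import Pool.Agent.Lib.BU59.B_TT
import Pool.Agent.Lib.BU59.B_CHI
import Pool.Agent.Lib.BU59.B_TAIL
import Pool.Agent.Lib.BU59.B_WIN

namespace Pool.Agent.Results.MP_5e6e69_pr.BubbleUpToFour

open Filter Topology Pool.Agent.Lib.MP_5e6e69_pr Pool.Agent.Lib.BU59

theorem result (d : ℕ) (hd : d = 2 ∨ d = 3 ∨ d = 4) (μ : ℝ)
    (hμ : Tendsto (fun n : ℕ => cnt d n ^ (1 / (n : ℝ))) atTop (𝓝 μ)) :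
    ∑' z : Fin d → ℤ, (∑' n : ℕ, ENNReal.ofReal (cntTo d n z / μ ^ n)) ^ 2 = ⊤ :=
  Lib.BU93.bubble_top (by omega) hμ fun h _ hB =>
    not_bdd4 st_TT (st_CHI st_TT) st_TAIL (st_MAIN st_TT (st_CHI st_TT) st_WL st_WIN st_TAIL)
      (by omega) (by omega) h hμ hB

end Pool.Agent.Results.MP_5e6e69_pr.BubbleUpToFour
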