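import Pool.Agent.Lib.MP_5e6e69_pr.Main

namespace Pool.Agent.Results.MP_5e6e69_pr.FisherInequality

open Filter Topology Pool.Agent.Lib.MP_5e6e69_pr

theorem result (d : ℕ) (hd : 2 ≤ d) (μ γ ν η : ℝ)
    (hμ : Tendsto (fun n : ℕ => cnt d n ^ (1 / (n : ℝ))) atTop (𝓝 μ))
    (hγ : Tendsto (fun n : ℕ => Real.log (cnt d n / μ ^ n) / Real.log n) atTop (𝓝 (γ - 1)))
    (hν : Tendsto (fun n : ℕ => Real.log (meanSq d n) / Real.log n) atTop (𝓝 (2 * ν)))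
    (hG : ∀ z, Summable fun n : ℕ => cntTo d n z / μ ^ n)
    (hη : Tendsto (fun z : Fin d → ℤ => Real.log (∑' n : ℕ, cntTo d n z / μ ^ n) /
      Real.log √(sqNorm z : ℝ)) cofinite (𝓝 (-(d - 2 + η)))) :
    γ ≤ ν * (2 - η) :=
  (main (by omega) μ γ ν η hμ hγ hν hG hη).1

end Pool.Agent.Results.MP_5e6e69_pr.FisherInequality
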