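import Pool.Agent.Lib.LRS.RG10

namespace Pool.Agent.Results.MP_5e6e69_pr.HierarchicalExponents

open Filter Topology Pool.Agent.Lib.LRS

theorem result (L d : ℕ) (hL : 2 ≤ L) (α β : ℝ) (h0 : 0 < α) (h1 : α < d) (hβ : 0 < β)
    (J : Hier L d → ℝ) (hJ : ∀ x, x ≠ 0 → J x = β * hnorm x ^ (-(d + α))) :
    ∃ μ γ ν η : ℝ, 0 < μ ∧ Tendsto (fun n : ℕ => cnt J n ^ (1 / (n : ℝ))) atTop (𝓝 μ) ∧
      (∀ (n : ℕ) (p : ℝ), 0 ≤ p → p < α →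
        Summable fun ω : Saw (Hier L d) n => wt J ω * hnorm (endp ω) ^ p) ∧
      (∀ z, Summable fun n : ℕ => cntTo J n z / μ ^ n) ∧
      Tendsto (fun n : ℕ => Real.log (cnt J n / μ ^ n) / Real.log n) atTop (𝓝 (γ - 1)) ∧
      (∀ p : ℝ, 0 ≤ p → p < α →
        Tendsto (fun n : ℕ => Real.log (mom hnorm J p n) / Real.log n) atTop (𝓝 (p * ν))) ∧
      (∃ c C : ℝ, 0 < c ∧ ∀ z, z ≠ 0 → c * hnorm z ^ (-(d - 2 + η)) ≤ green J μ z ∧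
        green J μ z ≤ C * hnorm z ^ (-(d - 2 + η))) ∧
      γ = ν * (2 - η) ∧ η = 2 - α ∧ (2 * α ≤ d → γ = 1) ∧
      (d < 2 * α → 1 < γ ∧ γ ≤ α / (d - α)) := by
  have hG := geo_hnorm hL (d := d) (by exact_mod_cast h0.trans h1)
  have hP : PowerLaw hnorm J (d + α) := ⟨β, β, hβ, fun x hx => ⟨(hJ x hx).ge, (hJ x hx).le⟩⟩
  obtain ⟨μ, hμ, h2, h3, h4, h5, h6, -⟩ := hG.concl_ultra (hnorm_ultra hL) hP h0 h1
  obtain ⟨h7, h8, h9⟩ := hG.concl2_ultra (hnorm_ultra hL) hP h0 h1 h2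
  obtain ⟨γ, hγ⟩ : ∃ γ : ℝ, Tendsto (fun n : ℕ => Real.log (cnt J n / μ ^ n) / Real.log n) atTop
      (𝓝 (γ - 1)) := by
    rcases le_or_gt (2 * α) d with h | h
    · exact ⟨1, by simpa using h8 h⟩
    · exact hier_gamma hL h0 h1 h hβ hJ h2
  refine ⟨μ, γ, γ / α, 2 - α, hμ, h2, h3, h4, hγ, h6 γ hγ, ?_, ?_, rfl,
    fun h => sub_eq_zero.1 (tendsto_nhds_unique hγ (h8 h)), fun h => ?_⟩
  · rwa [show -((d : ℝ) - 2 + (2 - α)) = α - d by ring]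
  · rw [sub_sub_cancel, div_mul_cancel₀ _ h0.ne']
  · obtain ⟨δ, a, A, hδ, ha, h10⟩ := h9 h
    have := gamma_bounds h7 hγ ha h10
    exact ⟨by linarith [this.1], by linarith [this.2]⟩

end Pool.Agent.Results.MP_5e6e69_pr.HierarchicalExponents
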