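import Pool.Agent.Lib.LRS.Lattice

namespace Pool.Agent.Results.MP_5e6e69_pr.LongRangeFisher

open Filter Topology Pool.Agent.Lib.LRS

theorem result (d : ℕ) (hd : 1 ≤ d) (α : ℝ) (h0 : 0 < α) (h1 : α < 1) (J : (Fin d → ℤ) → ℝ)
    (hJ : PowerLaw eucl J (d + α)) :
    ∃ μ η : ℝ, 0 < μ ∧ Tendsto (fun n : ℕ => cnt J n ^ (1 / (n : ℝ))) atTop (𝓝 μ) ∧
      (∀ (n : ℕ) (p : ℝ), 0 ≤ p → p < α →
        Summable fun ω : Saw (Fin d → ℤ) n => wt J ω * eucl (endp ω) ^ p) ∧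
      (∀ z, Summable fun n : ℕ => cntTo J n z / μ ^ n) ∧ η = 2 - α ∧
      (∃ c C : ℝ, 0 < c ∧ ∀ z, z ≠ 0 → c * eucl z ^ (-(d - 2 + η)) ≤ green J μ z ∧
        green J μ z ≤ C * eucl z ^ (-(d - 2 + η))) ∧
      ∀ γ : ℝ, Tendsto (fun n : ℕ => Real.log (cnt J n / μ ^ n) / Real.log n) atTop (𝓝 (γ - 1)) →
        ∃ ν : ℝ, (∀ p : ℝ, 0 ≤ p → p < α →
          Tendsto (fun n : ℕ => Real.log (mom eucl J p n) / Real.log n) atTop (𝓝 (p * ν))) ∧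
          γ = ν * (2 - η) := by
  obtain ⟨μ, hμ, h2, h3, h4, h5, h6, -⟩ := (geo_eucl hd).concl hJ h0 h1
    (h1.trans_le (by exact_mod_cast hd))
  refine ⟨μ, 2 - α, hμ, h2, h3, h4, rfl, ?_, fun γ hγ => ⟨γ / α, h6 γ hγ, ?_⟩⟩
  · rwa [show -((d : ℝ) - 2 + (2 - α)) = α - d by ring]
  · rw [sub_sub_cancel, div_mul_cancel₀ _ h0.ne']

end Pool.Agent.Results.MP_5e6e69_pr.LongRangeFisher
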